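import Pool.Agent.Y969.SM.Stm
import Pool.Agent.Y86.GP.CT
import Pool.Agent.Y587.GP.V
import Pool.Agent.H306R2.ZetaGrowth

set_option autoImplicit false

/-!
Project SX (helper969), part W2: the shifted factors are replaced by Dirichlet polynomials (job 8408).
The lemmas on the Gamma density are those of `Pool/Agent/TH806/Om.lean` and
`Pool/Agent/H262R4/TM/TW.lean`, with a general exponent in the tail estimate.
-/

namespace Pool.Agent.Y448.SX

open Filter MeasureTheory Complex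
open Pool.Agent.H306R2.SM (om)
open Pool.Agent.H262R4.TM (Rng)
open Pool.Agent.Y969.GP (ff PX mB)

noncomputable section

/-! ### the Gamma density -/

lemma om_nn (k : ℕ) {δ t : ℝ} (hδ : 0 < δ) (ht : 0 ≤ t) : 0 ≤ om k δ t := by unfold om; positivity

lemma om_cont (k : ℕ) (δ : ℝ) : Continuous (om k δ) := by
  unfold om; fun_prop

/-- integrability of `om * (1+t)^A` -/
lemma om_poly (k A : ℕ) {δ : ℝ} (hδ : 0 < δ) :
    IntegrableOn (fun t : ℝ => om k δ t * (1 + t) ^ A) (Set.Ioi 0) := by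
  have h1 : ∀ j : ℕ, IntegrableOn (fun t : ℝ => t ^ (k + j) * Real.exp (-(δ * t))) (Set.Ioi 0) := by
    intro j
    have := Real.GammaIntegral_convergent (s := (k + j : ℕ) + 1) (by positivity)
    have h2 := (integrableOn_Ioi_comp_mul_left_iff (fun x : ℝ => Real.exp (-x) * x ^ (((k + j : ℕ):ℝ) + 1 - 1)) 0 hδ).mpr
      (by simpa using this)
    have h3 : IntegrableOn (fun x => (δ ^ (k + j))⁻¹ *
        (Real.exp (-(δ * x)) * (δ * x) ^ (((k + j : ℕ) : ℝ) + 1 - 1))) (Set.Ioi 0) :=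
      h2.const_mul ((δ ^ (k + j))⁻¹)
    refine h3.congr_fun (fun t ht => ?_) measurableSet_Ioi
    have ht0 : 0 < t := ht
    simp only [add_sub_cancel_right]
    rw [Real.rpow_natCast, mul_pow]
    field_simp
  have h4 : (fun t : ℝ => om k δ t * (1 + t) ^ A) = fun t : ℝ =>
      ∑ j ∈ Finset.range (A + 1), (δ ^ (k + 1) / (k.factorial : ℝ) * (A.choose j : ℝ)) *
        (t ^ (k + j) * Real.exp (-(δ * t))) := by
    funext t
    rw [add_comm 1 t, add_pow, Finset.mul_sum]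
    refine Finset.sum_congr rfl fun j _ => ?_
    unfold om
    rw [pow_add]
    ring
  rw [h4]
  exact integrable_finsetSum _ fun j _ => (h1 j).const_mul _

lemma om_int0 (k : ℕ) {δ : ℝ} (hδ : 0 < δ) : IntegrableOn (fun t : ℝ => om k δ t) (Set.Ioi 0) := by
  have := om_poly k 0 hδ
  simpa using this

/-- total mass -/
lemma om_mass (k : ℕ) {δ : ℝ} (hδ : 0 < δ) : ∫ t in Set.Ioi (0:ℝ), om k δ t = 1 := by
  have h := Real.integral_rpow_mul_exp_neg_mul_Ioi (a := (k : ℝ) + 1) (r := δ) (by positivity) hδ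
  have e1 : ∀ t ∈ Set.Ioi (0:ℝ), om k δ t = (δ ^ (k + 1) / (k.factorial : ℝ)) *
      (t ^ ((k : ℝ) + 1 - 1) * Real.exp (-(δ * t))) := by
    intro t _
    unfold om
    rw [add_sub_cancel_right, Real.rpow_natCast]
    ring
  rw [setIntegral_congr_fun measurableSet_Ioi e1, integral_const_mul, h, Real.Gamma_nat_eq_factorial]
  have hk : (k.factorial : ℝ) ≠ 0 := by exact_mod_cast Nat.factorial_ne_zero k
  have hc : (1 / δ) ^ ((k : ℝ) + 1) = (1 / δ) ^ (k + 1) := by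
    rw [← Real.rpow_natCast]; push_cast; rfl
  rw [hc, div_pow, one_pow]
  field_simp

/-- tails -/
theorem om_tail (A B : ℕ) : ∀ᶠ T : ℝ in atTop, ∀ κ : ℕ, Rng T κ → ∀ t : ℝ, 0 < t → t ∉ Set.Ioc (T / 8) (8 * T) →
    om κ (κ / T) t * (1 + t) ^ A ≤ T ^ (-(B : ℝ)) * (om κ (κ / T / 4) t + om κ (4 * (κ / T)) t) := by
  have hlog := Real.tendsto_log_atTop
  filter_upwards [eventually_gt_atTop (8:ℝ), hlog.eventually_ge_atTop ((A:ℝ) + B + 20),
    eventually_ge_atTop (8 * (A.factorial : ℝ) * 3 ^ A)] with T hT8 hL hTA κ hκ t ht0 ht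
  have hT0 : 0 < T := by linarith
  set L := Real.log T with hLd
  have hA0 : (0:ℝ) ≤ A := Nat.cast_nonneg _
  have hB0 : (0:ℝ) ≤ B := Nat.cast_nonneg _
  have hL20 : 20 ≤ L := by linarith
  have hκL : L ^ 2 ≤ κ := hκ.1
  have hκ4 : (κ:ℝ) ≤ 4 * L ^ 2 := hκ.2
  have hκ0 : (0:ℝ) < κ := lt_of_lt_of_le (by positivity) hκL
  set δ : ℝ := κ / T with hδd
  have hδ : 0 < δ := by positivity
  have hδT : δ * T = κ := by rw [hδd]; field_simp
  have hexp : Real.exp (-(κ:ℝ)) * (8 * (A.factorial : ℝ) * 3 ^ A * T ^ A) ≤ T ^ (-(B : ℝ)) := by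
    have h1 : Real.exp (-(κ:ℝ)) ≤ Real.exp (-(L * L)) := Real.exp_le_exp.mpr (by nlinarith)
    have h2 : T ^ A = Real.exp (A * L) := by rw [Real.exp_nat_mul, hLd, Real.exp_log hT0]
    have h3 : T ^ (-(B : ℝ)) = Real.exp (-(B * L)) := by rw [Real.rpow_def_of_pos hT0, ← hLd]; congr 1; ring
    have h4 : (8 * (A.factorial : ℝ) * 3 ^ A) ≤ Real.exp L := by rw [hLd, Real.exp_log hT0]; exact hTA
    calc _ ≤ Real.exp (-(L * L)) * (Real.exp L * Real.exp (A * L)) := by rw [h2]; gcongr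
      _ = Real.exp (-(L * L) + (L + A * L)) := by rw [Real.exp_add, Real.exp_add]
      _ ≤ Real.exp (-(B * L)) := Real.exp_le_exp.mpr (by nlinarith)
      _ = _ := h3.symm
  rw [Set.mem_Ioc, not_and_or] at ht
  have hpos1 : 0 ≤ om κ (δ / 4) t := om_nn κ (by positivity) ht0.le
  have hpos2 : 0 ≤ om κ (4 * δ) t := om_nn κ (by positivity) ht0.le
  have hT10 : 0 ≤ T ^ (-(B : ℝ)) := by positivity
  have hfac : (1:ℝ) ≤ (A.factorial : ℝ) := by exact_mod_cast Nat.factorial_pos A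
  rcases ht with h | h
  · push Not at h
    have e1 : om κ δ t = (1 / 4) ^ (κ + 1) * Real.exp (3 * δ * t) * om κ (4 * δ) t := by
      unfold om
      have : Real.exp (-(δ * t)) = Real.exp (3 * δ * t) * Real.exp (-(4 * δ * t)) := by
        rw [← Real.exp_add]; congr 1; ring
      rw [this, mul_pow]
      have h4 : ((1:ℝ) / 4) ^ (κ + 1) * 4 ^ (κ + 1) = 1 := by rw [← mul_pow]; norm_num
      calc δ ^ (κ + 1) * t ^ κ * (Real.exp (3 * δ * t) * Real.exp (-(4 * δ * t))) / (κ.factorial : ℝ) =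
          (((1:ℝ) / 4) ^ (κ + 1) * 4 ^ (κ + 1)) * (δ ^ (κ + 1) * t ^ κ * (Real.exp (3 * δ * t) *
            Real.exp (-(4 * δ * t))) / (κ.factorial : ℝ)) := by rw [h4, one_mul]
        _ = _ := by ring
    have h5 : Real.exp (3 * δ * t) ≤ Real.exp (3 / 8 * κ) := by
      apply Real.exp_le_exp.mpr
      have : δ * t ≤ δ * (T / 8) := mul_le_mul_of_nonneg_left h hδ.le
      nlinarith
    have h6 : ((1:ℝ) / 4) ^ (κ + 1) ≤ Real.exp (-(11 / 8 * κ)) := by
      have h7 : ((1:ℝ) / 4) ≤ Real.exp (-(11 / 8)) := by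
        rw [Real.exp_neg, one_div]
        refine inv_anti₀ (Real.exp_pos _) ?_
        have h8 : Real.exp (11 / 8) = Real.exp 1 * Real.exp (3 / 8) := by rw [← Real.exp_add]; norm_num
        have h9 : Real.exp (3 / 8) ≤ 1.456 := by
          have := Real.exp_bound' (x := 3 / 8) (by norm_num) (by norm_num) (n := 4) (by norm_num)
          norm_num [Finset.sum_range_succ, Nat.factorial] at this
          linarith
        rw [h8]
        have := Real.exp_one_lt_d9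
        nlinarith [Real.exp_pos (3/8)]
      calc ((1:ℝ) / 4) ^ (κ + 1) ≤ ((1:ℝ) / 4) ^ κ := pow_le_pow_of_le_one (by norm_num) (by norm_num) (by omega)
        _ ≤ Real.exp (-(11 / 8)) ^ κ := by gcongr
        _ = _ := by rw [← Real.exp_nat_mul]; congr 1; ring
    have h7 : (1 + t) ^ A ≤ T ^ A := by gcongr; linarith
    rw [e1]
    calc (1 / 4) ^ (κ + 1) * Real.exp (3 * δ * t) * om κ (4 * δ) t * (1 + t) ^ A ≤
        Real.exp (-(11 / 8 * κ)) * Real.exp (3 / 8 * κ) * om κ (4 * δ) t * T ^ A := by gcongr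
      _ = (Real.exp (-(κ:ℝ)) * T ^ A) * om κ (4 * δ) t := by
          rw [← Real.exp_add]
          have : -(11 / 8 * (κ:ℝ)) + 3 / 8 * κ = -κ := by ring
          rw [this]; ring
      _ ≤ T ^ (-(B : ℝ)) * om κ (4 * δ) t := by
          refine mul_le_mul_of_nonneg_right (le_trans ?_ hexp) hpos2
          have h8 : (1:ℝ) ≤ 8 * (A.factorial : ℝ) * 3 ^ A := by
            have : (1:ℝ) ≤ 3 ^ A := one_le_pow₀ (by norm_num)
            nlinarith
          have h9 : 0 ≤ Real.exp (-(κ:ℝ)) * T ^ A := by positivity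
          nlinarith
      _ ≤ _ := by
          refine mul_le_mul_of_nonneg_left ?_ hT10
          linarith
  · push Not at h
    have e1 : om κ δ t = 4 ^ (κ + 1) * Real.exp (-(3 / 4 * δ * t)) * om κ (δ / 4) t := by
      unfold om
      have : Real.exp (-(δ * t)) = Real.exp (-(3 / 4 * δ * t)) * Real.exp (-(δ / 4 * t)) := by
        rw [← Real.exp_add]; congr 1; ring
      rw [this]
      have h4 : (δ / 4) ^ (κ + 1) * 4 ^ (κ + 1) = δ ^ (κ + 1) := by rw [← mul_pow]; congr 1; ring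
      rw [← h4]; ring
    have h2 : (1 + t) ^ A ≤ (A.factorial : ℝ) * (3 * T) ^ A * Real.exp (3 / 8 * δ * (1 + t)) := by
      have h3 := Real.pow_div_factorial_le_exp (3 / 8 * δ * (1 + t)) (by positivity) A
      rw [div_le_iff₀ (by positivity)] at h3
      have h4 : (3 * T) * (3 / 8 * δ) ≥ 1 := by
        have h5 : (3 * T) * (3 / 8 * δ) = 9 / 8 * κ := by rw [← hδT]; ring
        rw [h5]; nlinarith
      have h5 : (1 + t) ^ A ≤ (3 * T) ^ A * (3 / 8 * δ * (1 + t)) ^ A := by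
        rw [← mul_pow]
        refine pow_le_pow_left₀ (by positivity) ?_ A
        calc (1 + t) = 1 * (1 + t) := (one_mul _).symm
          _ ≤ ((3 * T) * (3 / 8 * δ)) * (1 + t) := mul_le_mul_of_nonneg_right h4 (by positivity)
          _ = _ := by ring
      calc (1 + t) ^ A ≤ (3 * T) ^ A * (3 / 8 * δ * (1 + t)) ^ A := h5
        _ ≤ (3 * T) ^ A * (Real.exp (3 / 8 * δ * (1 + t)) * (A.factorial : ℝ)) := by gcongr
        _ = _ := by ring
    have hδ1 : δ ≤ 1 := by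
      rw [hδd, div_le_one hT0]
      have h9 : κ ≤ Real.exp L := by
        refine hκ4.trans ?_
        have h10 := Real.pow_div_factorial_le_exp L (by linarith) 4
        rw [div_le_iff₀ (by positivity)] at h10
        norm_num [Nat.factorial] at h10
        have h12 : L ^ 2 ≥ 400 := by nlinarith
        have h11 : L ^ 4 ≥ 400 * L ^ 2 := by
          have : L ^ 4 = L ^ 2 * L ^ 2 := by ring
          rw [this]; exact mul_le_mul_of_nonneg_right h12 (sq_nonneg L)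
        nlinarith [sq_nonneg L]
      rwa [hLd, Real.exp_log hT0] at h9
    have h3 : Real.exp (-(3 / 4 * δ * t)) * Real.exp (3 / 8 * δ * (1 + t)) ≤ 2 * Real.exp (-(3 * κ)) := by
      rw [← Real.exp_add]
      have h4 : δ * (8 * T) ≤ δ * t := mul_le_mul_of_nonneg_left h.le hδ.le
      have h5 : -(3 / 4 * δ * t) + 3 / 8 * δ * (1 + t) ≤ 1 / 2 + -(3 * κ) := by nlinarith
      refine (Real.exp_le_exp.mpr h5).trans ?_
      rw [Real.exp_add]
      have h6 : Real.exp (1 / 2) ≤ 2 := by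
        have e2 : Real.exp (1 / 2) ^ 2 = Real.exp 1 := by rw [← Real.exp_nat_mul]; norm_num
        have := Real.exp_one_lt_d9
        nlinarith [Real.exp_pos (1/2)]
      exact mul_le_mul_of_nonneg_right h6 (Real.exp_pos _).le
    have h4 : (4:ℝ) ^ (κ + 1) ≤ 4 * Real.exp (2 * κ) := by
      rw [pow_succ, mul_comm]
      have h5 : (4:ℝ) ≤ Real.exp 2 := by
        have e2 : Real.exp 2 = Real.exp 1 ^ 2 := by rw [← Real.exp_nat_mul]; norm_num
        have := Real.exp_one_gt_d9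
        rw [e2]; nlinarith
      have h6 : (4:ℝ) ^ κ ≤ Real.exp (2 * κ) := by
        calc (4:ℝ) ^ κ ≤ Real.exp 2 ^ κ := by gcongr
          _ = _ := by rw [← Real.exp_nat_mul]; congr 1; ring
      linarith
    rw [e1]
    calc 4 ^ (κ + 1) * Real.exp (-(3 / 4 * δ * t)) * om κ (δ / 4) t * (1 + t) ^ A ≤
        4 ^ (κ + 1) * Real.exp (-(3 / 4 * δ * t)) * om κ (δ / 4) t *
          ((A.factorial : ℝ) * (3 * T) ^ A * Real.exp (3 / 8 * δ * (1 + t))) := by gcongr
      _ = 4 ^ (κ + 1) * (Real.exp (-(3 / 4 * δ * t)) * Real.exp (3 / 8 * δ * (1 + t))) *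
          ((A.factorial : ℝ) * (3 * T) ^ A) * om κ (δ / 4) t := by ring
      _ ≤ (4 * Real.exp (2 * κ)) * (2 * Real.exp (-(3 * κ))) * ((A.factorial : ℝ) * (3 * T) ^ A) * om κ (δ / 4) t := by
          gcongr
      _ = (Real.exp (-(κ:ℝ)) * (8 * (A.factorial : ℝ) * 3 ^ A * T ^ A)) * om κ (δ / 4) t := by
          have : Real.exp (-(κ:ℝ)) = Real.exp (2 * κ) * Real.exp (-(3 * κ)) := by rw [← Real.exp_add]; congr 1; ring
          rw [this, mul_pow]; ring
      _ ≤ T ^ (-(B : ℝ)) * om κ (δ / 4) t := mul_le_mul_of_nonneg_right hexp hpos1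
      _ ≤ _ := by
          refine mul_le_mul_of_nonneg_left ?_ hT10
          linarith

/-- the integral over the tails -/
theorem om_tail_int (A B : ℕ) : ∀ᶠ T : ℝ in atTop, ∀ κ : ℕ, Rng T κ →
    ∫ t in Set.Ioi (0:ℝ) \ Set.Ioc (T / 8) (8 * T), om κ (κ / T) t * (1 + t) ^ A ≤ 2 * T ^ (-(B : ℝ)) := by
  filter_upwards [om_tail A B, eventually_gt_atTop (8:ℝ)] with T h1 hT κ hκ
  have hT0 : 0 < T := by linarith
  have hL : 0 < Real.log T := Real.log_pos (by linarith)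
  have hκ0 : (0:ℝ) < κ := lt_of_lt_of_le (by positivity) hκ.1
  have hδ : 0 < (κ:ℝ) / T := by positivity
  have i1 := om_int0 κ (δ := (κ:ℝ) / T / 4) (by positivity)
  have i2 := om_int0 κ (δ := 4 * ((κ:ℝ) / T)) (by positivity)
  have i3 : IntegrableOn (fun t => T ^ (-(B : ℝ)) * (om κ (κ / T / 4) t + om κ (4 * (κ / T)) t)) (Set.Ioi 0) :=
    (i1.add i2).const_mul _
  calc ∫ t in Set.Ioi (0:ℝ) \ Set.Ioc (T / 8) (8 * T), om κ (κ / T) t * (1 + t) ^ A
      ≤ ∫ t in Set.Ioi (0:ℝ) \ Set.Ioc (T / 8) (8 * T),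
        T ^ (-(B : ℝ)) * (om κ (κ / T / 4) t + om κ (4 * (κ / T)) t) := by
        refine setIntegral_mono_on ((om_poly κ A hδ).mono_set Set.sdiff_subset)
          (i3.mono_set Set.sdiff_subset) (measurableSet_Ioi.diff measurableSet_Ioc) fun t ht => ?_
        exact h1 κ hκ t ht.1 ht.2
    _ ≤ ∫ t in Set.Ioi (0:ℝ), T ^ (-(B : ℝ)) * (om κ (κ / T / 4) t + om κ (4 * (κ / T)) t) := by
        refine setIntegral_mono_set i3 ?_ (ae_of_all _ fun t ht => ht.1)
        filter_upwards [ae_restrict_mem measurableSet_Ioi] with t ht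
        have ht0 : (0:ℝ) ≤ t := le_of_lt ht
        have a1 := om_nn κ (δ := (κ:ℝ) / T / 4) (by positivity) ht0
        have a2 := om_nn κ (δ := 4 * ((κ:ℝ) / T)) (by positivity) ht0
        simp only [Pi.zero_apply]
        positivity
    _ = 2 * T ^ (-(B : ℝ)) := by
        rw [integral_const_mul, integral_add i1 i2, om_mass κ (by positivity), om_mass κ (by positivity)]
        ring

/-! ### telescoping -/

theorem tele_aux {ι : Type} [DecidableEq ι] (s : Finset ι) (f P : ι → ℂ) (e : ℝ) (G : ι → ℝ)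
    (hG : ∀ i, 1 ≤ G i) (he : 0 ≤ e) (hf : ∀ i, ‖f i‖ ≤ G i) (hP : ∀ i, ‖P i‖ ≤ G i)
    (hd : ∀ i, ‖f i - P i‖ ≤ e) :
    ‖∏ i ∈ s, f i - ∏ i ∈ s, P i‖ ≤ s.card * e * ∏ i ∈ s, G i := by
  induction s using Finset.induction_on with
  | empty => simp
  | insert a s ha ih =>
    rw [Finset.prod_insert ha, Finset.prod_insert ha, Finset.prod_insert ha,
      Finset.card_insert_of_notMem ha]
    have h3 : f a * ∏ i ∈ s, f i - P a * ∏ i ∈ s, P i =
        (f a - P a) * ∏ i ∈ s, f i + P a * (∏ i ∈ s, f i - ∏ i ∈ s, P i) := by ring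
    rw [h3]
    have hG0 : ∀ i, 0 ≤ G i := fun i => zero_le_one.trans (hG i)
    have hp0 : 0 ≤ ∏ i ∈ s, G i := Finset.prod_nonneg fun i _ => hG0 i
    have h4 : ‖(f a - P a) * ∏ i ∈ s, f i‖ ≤ e * ∏ i ∈ s, G i := by
      rw [norm_mul]
      refine mul_le_mul (hd a) ?_ (norm_nonneg _) he
      rw [norm_prod]
      exact Finset.prod_le_prod (fun i _ => norm_nonneg _) fun i _ => hf i
    have h5 : ‖P a * (∏ i ∈ s, f i - ∏ i ∈ s, P i)‖ ≤ G a * (s.card * e * ∏ i ∈ s, G i) := by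
      rw [norm_mul]
      exact mul_le_mul (hP a) ih (norm_nonneg _) (hG0 a)
    have h6 : e * ∏ i ∈ s, G i ≤ G a * (e * ∏ i ∈ s, G i) :=
      le_mul_of_one_le_left (mul_nonneg he hp0) (hG a)
    calc _ ≤ _ := norm_add_le _ _
      _ ≤ G a * (e * ∏ i ∈ s, G i) + G a * (s.card * e * ∏ i ∈ s, G i) :=
          add_le_add (h4.trans h6) h5
      _ = _ := by push_cast; ring

/-! ### the box -/

theorem mB_eq (n : ℕ) (a T : ℝ) : mB n a T =
    (volume : Measure (Fin n → ℝ)).restrict (Set.univ.pi fun _ => Set.Icc a T) := by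
  unfold mB
  rw [← Measure.restrict_pi_pi, volume_pi]

theorem mB_ae (n : ℕ) (a T : ℝ) : ∀ᵐ c ∂(mB n a T), ∀ i, c i ∈ Set.Icc a T := by
  rw [mB_eq]
  filter_upwards [ae_restrict_mem (MeasurableSet.univ_pi fun _ => measurableSet_Icc)] with c hc i
  exact hc i (Set.mem_univ i)

instance mB_fin (n : ℕ) (a T : ℝ) : IsFiniteMeasure (mB n a T) := by
  unfold mB
  infer_instance

theorem mB_mass (n : ℕ) {U : ℝ} (hU : 0 ≤ U) : (mB n 0 U).real Set.univ = U ^ n := by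
  unfold mB Measure.real
  rw [Measure.pi_univ]
  simp [ENNReal.toReal_ofReal hU]

/-! ### the zeta function -/

theorem ff_cont : Continuous ff := by
  unfold Pool.Agent.Y969.GP.ff
  refine (continuous_iff_continuousAt.2 fun u => ?_).norm.pow 2
  have h1 : (1 / 2 + I * (u : ℂ)) ≠ 1 := by
    intro h
    have := congrArg Complex.re h
    simp at this
  have h2 := (differentiableAt_riemannZeta h1).continuousAt
  exact ContinuousAt.comp (f := fun u : ℝ => 1 / 2 + I * (u : ℂ)) (g := riemannZeta) h2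
    (by fun_prop)

theorem ff_nn (u : ℝ) : 0 ≤ ff u := by
  unfold Pool.Agent.Y969.GP.ff
  positivity

theorem ff_bound {u : ℝ} (hu : 0 ≤ u) : ff u ≤ 576 * (1 + u) ^ 4 := by
  unfold Pool.Agent.Y969.GP.ff
  have h := Pool.Agent.H306R2.zeta_norm_le (s := 1 / 2 + I * (u : ℂ)) (by simp) (by
    have h1 : |(1 / 2 + I * (u : ℂ) - 1).re| ≤ ‖(1 / 2 + I * (u : ℂ) - 1)‖ :=
      Complex.abs_re_le_norm _
    have h2 : |(1 / 2 + I * (u : ℂ) - 1).re| = 1 / 2 := by
      simp only [Complex.sub_re, Complex.add_re, Complex.mul_re, Complex.ofReal_re,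
        Complex.I_re, zero_mul, Complex.ofReal_im, Complex.I_im, mul_zero, sub_self, add_zero,
        Complex.one_re]
      norm_num
    linarith)
  have h3 : ‖1 / 2 + I * (u : ℂ)‖ ≤ 1 / 2 + u := by
    refine (norm_add_le _ _).trans ?_
    rw [norm_mul, Complex.norm_real, Complex.norm_I, one_mul, Real.norm_of_nonneg hu]
    norm_num
  have h4 : (‖1 / 2 + I * (u : ℂ)‖ + 1) ^ 2 ≤ (2 * (1 + u)) ^ 2 := by
    apply pow_le_pow_left₀ (by positivity)
    linarith
  have h5 : ‖riemannZeta (1 / 2 + I * (u : ℂ))‖ ≤ 24 * (1 + u) ^ 2 := by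
    refine h.trans ?_
    nlinarith
  calc ‖riemannZeta (1 / 2 + I * (u : ℂ))‖ ^ 2 ≤ (24 * (1 + u) ^ 2) ^ 2 :=
        pow_le_pow_left₀ (norm_nonneg _) h5 2
    _ = _ := by ring

/-- the majorant of `ff` and `PX` -/
def gR (C R u : ℝ) : ℝ := (Set.Icc 0 R).indicator (fun u => ff u + C) u

theorem gR_meas (C R : ℝ) : Measurable (gR C R) :=
  ((ff_cont.measurable.add_const C).indicator measurableSet_Icc)

theorem gR_nn {C : ℝ} (hC : 0 ≤ C) (R u : ℝ) : 0 ≤ gR C R u := by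
  unfold gR
  refine Set.indicator_nonneg (fun u _ => ?_) u
  have := ff_nn u
  linarith

theorem gR_bdd {C : ℝ} (R : ℝ) (hC : 0 ≤ C) : ∃ M : ℝ, ∀ u, gR C R u ≤ M := by
  obtain ⟨M, hM⟩ := (isCompact_Icc (a := (0 : ℝ)) (b := R)).exists_bound_of_continuousOn
    (f := ff) ff_cont.continuousOn
  refine ⟨|M| + C, fun u => ?_⟩
  unfold gR
  by_cases hu : u ∈ Set.Icc 0 R
  · rw [Set.indicator_of_mem hu]
    have h1 := (Real.le_norm_self _).trans (hM u hu)
    have h2 := le_abs_self M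
    linarith
  · rw [Set.indicator_of_notMem hu]
    linarith [abs_nonneg M]

theorem gR_int (C R : ℝ) : Integrable (gR C R) := by
  unfold gR
  rw [integrable_indicator_iff measurableSet_Icc]
  exact (ff_cont.add continuous_const).continuousOn.integrableOn_Icc

theorem gR_int_eq (C R : ℝ) (hR : 0 ≤ R) :
    ∫ u, gR C R u = (∫ u in (0 : ℝ)..R, ff u) + R * C := by
  unfold gR
  rw [integral_indicator measurableSet_Icc, integral_Icc_eq_integral_Ioc,
    ← intervalIntegral.integral_of_le hR,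
    intervalIntegral.integral_add (ff_cont.intervalIntegrable _ _) intervalIntegrable_const,
    intervalIntegral.integral_const]
  simp

theorem gR_int1 {C : ℝ} (hC : 0 ≤ C) (R a U t : ℝ) :
    ∫ x in Set.Icc a U, gR C R (t + x) ≤ ∫ u, gR C R u := by
  rw [← integral_add_left_eq_self (gR C R) t]
  exact setIntegral_le_integral ((gR_int C R).comp_add_left t)
    (ae_of_all _ fun x => gR_nn hC _ _)

/-- Fubini -/
theorem fub {n : ℕ} (U : ℝ) (S : Set ℝ) (w g : ℝ → ℝ) (M B : ℝ) (hw : IntegrableOn w S)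
    (hw0 : ∀ᵐ t ∂(volume.restrict S), 0 ≤ w t) (hg : Measurable g) (hg0 : ∀ u, 0 ≤ g u)
    (hgM : ∀ u, g u ≤ M) (hB : ∀ t : ℝ, ∫ x in Set.Icc 0 U, g (t + x) ≤ B) :
    Integrable (fun c : Fin n → ℝ => ∫ t in S, w t * ∏ i, g (t + c i)) (mB n 0 U) ∧
    ∫ c, (∫ t in S, w t * ∏ i, g (t + c i)) ∂(mB n 0 U) ≤ (∫ t in S, w t) * B ^ n := by
  have hI : Integrable (Function.uncurry fun (c : Fin n → ℝ) (t : ℝ) => w t * ∏ i, g (t + c i))
      ((mB n 0 U).prod (volume.restrict S)) := by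
    have h1 : Integrable (fun p : (Fin n → ℝ) × ℝ => w p.2) ((mB n 0 U).prod (volume.restrict S)) := by
      have := (integrable_const (1:ℝ) (μ := mB n 0 U)).mul_prod hw
      simpa using this
    have h2 : Measurable (fun p : (Fin n → ℝ) × ℝ => ∏ i, g (p.2 + p.1 i)) := by
      refine Finset.measurable_fun_prod _ fun i _ => ?_
      exact hg.comp (measurable_snd.add ((measurable_pi_apply i).comp measurable_fst))
    refine h1.mul_bdd (c := M ^ n) h2.aestronglyMeasurable (ae_of_all _ fun p => ?_)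
    rw [Real.norm_of_nonneg (Finset.prod_nonneg fun i _ => hg0 _)]
    calc ∏ i, g (p.2 + p.1 i) ≤ ∏ _i : Fin n, M :=
          Finset.prod_le_prod (fun i _ => hg0 _) fun i _ => hgM _
      _ = M ^ n := by simp
  refine ⟨hI.integral_prod_left, ?_⟩
  rw [integral_integral_swap hI]
  have h1 : ∀ t : ℝ, ∫ c, w t * ∏ i, g (t + c i) ∂(mB n 0 U) =
      w t * (∫ x in Set.Icc 0 U, g (t + x)) ^ n := by
    intro t
    rw [integral_const_mul]
    unfold mB
    rw [integral_fintype_prod_eq_prod (fun (i : Fin n) (x : ℝ) => g (t + x))]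
    simp
  simp_rw [h1]
  rw [← integral_mul_const]
  refine integral_mono_of_nonneg ?_ (hw.mul_const _) ?_
  · filter_upwards [hw0] with t ht
    exact mul_nonneg ht (pow_nonneg (integral_nonneg fun x => hg0 _) _)
  · filter_upwards [hw0] with t ht
    exact mul_le_mul_of_nonneg_left (pow_le_pow_left₀ (integral_nonneg fun x => hg0 _) (hB t) n) ht

/-- one vector of shifts -/
theorem core {n : ℕ} (T U E CC R : ℝ) (κ X : ℕ) (F : ℝ → ℝ) (c : Fin n → ℝ) (hT : 8 ≤ T)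
    (hκ : 0 < κ) (hF : Continuous F) (hFb : ∀ t, 0 ≤ t → |F t| ≤ T ^ 3 * (1 + t) ^ 4)
    (hc : ∀ i, c i ∈ Set.Icc 0 U) (hU : 0 ≤ U)
    (hR : 8 * T + U ≤ R) (hE : 0 ≤ E) (hC : 1 + E ≤ CC)
    (hPX : ∀ u, T / 8 ≤ u → u ≤ R → ‖(ff u : ℂ) - PX X u‖ ≤ E)
    (hPc : ContinuousOn (fun t : ℝ => ∏ j, PX X (t + c j)) (Set.Ioi 0)) :
    ‖((∫ t in Set.Ioi (0:ℝ), om κ (κ / T) t * (F t * ∏ j, ff (t + c j)) : ℝ) : ℂ) -
      ∫ t in (T / 8)..(8 * T), ((om κ (κ / T) t * F t : ℝ) : ℂ) * ∏ j, PX X (t + c j)‖ ≤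
    T ^ 3 * (576 * (1 + U) ^ 4) ^ n *
        (∫ t in Set.Ioi (0:ℝ) \ Set.Ioc (T / 8) (8 * T), om κ (κ / T) t * (1 + t) ^ (4 + 4 * n)) +
      n * E * ∫ t in Set.Ioc (T / 8) (8 * T), om κ (κ / T) t * |F t| * ∏ i, gR CC R (t + c i) := by
  have hT0 : 0 < T := by linarith
  have hδ : 0 < (κ:ℝ) / T := by positivity
  have hsub : Set.Ioc (T / 8) (8 * T) ⊆ Set.Ioi (0:ℝ) := fun t ht => lt_trans (by positivity) ht.1
  -- the first integrand
  have hPcont : Continuous (fun t => om κ (κ / T) t * (F t * ∏ j, ff (t + c j))) := by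
    refine (om_cont κ _).mul (hF.mul ?_)
    exact continuous_finsetProd _ fun j _ => ff_cont.comp (continuous_id.add continuous_const)
  have hPb : ∀ t ∈ Set.Ioi (0:ℝ), ‖om κ (κ / T) t * (F t * ∏ j, ff (t + c j))‖ ≤
      T ^ 3 * (576 * (1 + U) ^ 4) ^ n * (om κ (κ / T) t * (1 + t) ^ (4 + 4 * n)) := by
    intro t ht
    have ht0 : (0:ℝ) ≤ t := le_of_lt ht
    have h1 := om_nn κ hδ ht0
    have h2 : ∏ j, ff (t + c j) ≤ ((576 * (1 + U) ^ 4) * (1 + t) ^ 4) ^ n := by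
      calc ∏ j, ff (t + c j) ≤ ∏ _j : Fin n, ((576 * (1 + U) ^ 4) * (1 + t) ^ 4) := by
            refine Finset.prod_le_prod (fun j _ => ff_nn _) fun j _ => ?_
            have h3 := hc j
            refine (ff_bound (by linarith [h3.1])).trans ?_
            have h4 : 1 + (t + c j) ≤ (1 + U) * (1 + t) := by nlinarith [h3.1, h3.2]
            calc 576 * (1 + (t + c j)) ^ 4 ≤ 576 * ((1 + U) * (1 + t)) ^ 4 := by
                  have : 0 ≤ 1 + (t + c j) := by linarith [h3.1]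
                  gcongr
              _ = _ := by ring
        _ = _ := by simp
    have h3 : 0 ≤ ∏ j, ff (t + c j) := Finset.prod_nonneg fun j _ => ff_nn _
    rw [norm_mul, norm_mul, Real.norm_of_nonneg h1, Real.norm_eq_abs, Real.norm_of_nonneg h3]
    calc om κ (κ / T) t * (|F t| * ∏ j, ff (t + c j))
        ≤ om κ (κ / T) t * (T ^ 3 * (1 + t) ^ 4 * ((576 * (1 + U) ^ 4) * (1 + t) ^ 4) ^ n) := by
          refine mul_le_mul_of_nonneg_left ?_ h1
          exact mul_le_mul (hFb t ht0) h2 h3 (by positivity)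
      _ = _ := by
          rw [mul_pow (576 * (1 + U) ^ 4), ← pow_mul, pow_add]
          ring
  have hPint : IntegrableOn (fun t => om κ (κ / T) t * (F t * ∏ j, ff (t + c j))) (Set.Ioi 0) := by
    refine Integrable.mono' ((om_poly κ (4 + 4 * n) hδ).const_mul
      (T ^ 3 * (576 * (1 + U) ^ 4) ^ n)) hPcont.aestronglyMeasurable ?_
    filter_upwards [ae_restrict_mem measurableSet_Ioi] with t ht
    exact hPb t ht
  -- the second integrand
  have hQint : IntegrableOn (fun t => ((om κ (κ / T) t * F t : ℝ) : ℂ) * ∏ j, PX X (t + c j))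
      (Set.Ioc (T / 8) (8 * T)) := by
    refine (ContinuousOn.integrableOn_Icc ?_).mono_set Set.Ioc_subset_Icc_self
    refine ContinuousOn.mul ?_ (hPc.mono fun t ht => lt_of_lt_of_le (by positivity) ht.1)
    exact (Complex.continuous_ofReal.comp ((om_cont κ _).mul hF)).continuousOn
  -- the difference
  have hsplit : ∫ t in Set.Ioi (0:ℝ), om κ (κ / T) t * (F t * ∏ j, ff (t + c j)) =
      (∫ t in Set.Ioi (0:ℝ) \ Set.Ioc (T / 8) (8 * T), om κ (κ / T) t * (F t * ∏ j, ff (t + c j))) +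
      ∫ t in Set.Ioc (T / 8) (8 * T), om κ (κ / T) t * (F t * ∏ j, ff (t + c j)) := by
    rw [setIntegral_sdiff measurableSet_Ioc hPint hsub]
    ring
  have hPc2 : IntegrableOn (fun t => ((om κ (κ / T) t * (F t * ∏ j, ff (t + c j)) : ℝ) : ℂ))
      (Set.Ioc (T / 8) (8 * T)) := (hPint.mono_set hsub).ofReal
  have hdiff : ((∫ t in Set.Ioi (0:ℝ), om κ (κ / T) t * (F t * ∏ j, ff (t + c j)) : ℝ) : ℂ) -
      ∫ t in (T / 8)..(8 * T), ((om κ (κ / T) t * F t : ℝ) : ℂ) * ∏ j, PX X (t + c j) =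
      ((∫ t in Set.Ioi (0:ℝ) \ Set.Ioc (T / 8) (8 * T),
        om κ (κ / T) t * (F t * ∏ j, ff (t + c j)) : ℝ) : ℂ) +
      ∫ t in Set.Ioc (T / 8) (8 * T), (((om κ (κ / T) t * (F t * ∏ j, ff (t + c j)) : ℝ) : ℂ) -
        ((om κ (κ / T) t * F t : ℝ) : ℂ) * ∏ j, PX X (t + c j)) := by
    rw [integral_sub hPc2 hQint, integral_complex_ofReal, hsplit,
      intervalIntegral.integral_of_le (by linarith)]
    push_cast
    ring
  rw [hdiff]
  refine (norm_add_le _ _).trans (add_le_add ?_ ?_)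
  · rw [Complex.norm_real]
    refine (norm_integral_le_integral_norm _).trans ?_
    rw [← integral_const_mul]
    refine setIntegral_mono_on ((hPint.mono_set Set.sdiff_subset).norm)
      (((om_poly κ (4 + 4 * n) hδ).mono_set Set.sdiff_subset).const_mul _)
      (measurableSet_Ioi.diff measurableSet_Ioc) fun t ht => hPb t ht.1
  · refine (norm_integral_le_integral_norm _).trans ?_
    rw [← integral_const_mul]
    obtain ⟨M, hM⟩ := gR_bdd (C := CC) R (by linarith)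
    have hmaj : IntegrableOn (fun t => om κ (κ / T) t * |F t| * ∏ i, gR CC R (t + c i))
        (Set.Ioc (T / 8) (8 * T)) := by
      have h1 : IntegrableOn (fun t => om κ (κ / T) t * |F t|) (Set.Ioc (T / 8) (8 * T)) :=
        (((om_cont κ _).mul hF.abs).continuousOn.integrableOn_Icc).mono_set Set.Ioc_subset_Icc_self
      refine h1.mul_bdd (c := M ^ n) ?_ (ae_of_all _ fun t => ?_)
      · refine Measurable.aestronglyMeasurable ?_
        refine Finset.measurable_fun_prod _ fun i _ => ?_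
        exact (gR_meas CC R).comp (measurable_id.add_const _)
      · rw [Real.norm_of_nonneg (Finset.prod_nonneg fun i _ => gR_nn (by linarith) _ _)]
        calc ∏ i, gR CC R (t + c i) ≤ ∏ _i : Fin n, M :=
              Finset.prod_le_prod (fun i _ => gR_nn (by linarith) _ _) fun i _ => hM _
          _ = M ^ n := by simp
    refine setIntegral_mono_on (hPc2.sub hQint).norm (hmaj.const_mul _) measurableSet_Ioc
      fun t ht => ?_
    have ht0 : (0:ℝ) ≤ t := by linarith [ht.1]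
    have h1 := om_nn κ hδ ht0
    have hu : ∀ i, T / 8 ≤ t + c i ∧ t + c i ≤ R := by
      intro i
      have := hc i
      exact ⟨by linarith [this.1, ht.1], by linarith [this.2, ht.2]⟩
    have hg : ∀ i, gR CC R (t + c i) = ff (t + c i) + CC := by
      intro i
      unfold gR
      rw [Set.indicator_of_mem]
      exact ⟨by linarith [(hu i).1], (hu i).2⟩
    have h3 := tele_aux Finset.univ (fun i => (ff (t + c i) : ℂ)) (fun i => PX X (t + c i))
      E (fun i => gR CC R (t + c i)) ?_ hE ?_ ?_ ?_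
    · have h4 : ((om κ (κ / T) t * (F t * ∏ j, ff (t + c j)) : ℝ) : ℂ) -
          ((om κ (κ / T) t * F t : ℝ) : ℂ) * ∏ j, PX X (t + c j) =
          ((om κ (κ / T) t * F t : ℝ) : ℂ) * (∏ j, (ff (t + c j) : ℂ) - ∏ j, PX X (t + c j)) := by
        push_cast
        ring
      rw [h4, norm_mul, Complex.norm_real, norm_mul, Real.norm_of_nonneg h1, Real.norm_eq_abs]
      simp only [Finset.card_univ, Fintype.card_fin] at h3
      calc om κ (κ / T) t * |F t| * ‖∏ j, (ff (t + c j) : ℂ) - ∏ j, PX X (t + c j)‖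
          ≤ om κ (κ / T) t * |F t| * (n * E * ∏ i, gR CC R (t + c i)) :=
            mul_le_mul_of_nonneg_left h3 (mul_nonneg h1 (abs_nonneg _))
        _ = _ := by ring
    · intro i
      rw [hg]
      linarith [ff_nn (t + c i)]
    · intro i
      rw [hg, Complex.norm_real, Real.norm_of_nonneg (ff_nn _)]
      linarith
    · intro i
      rw [hg]
      have h4 : PX X (t + c i) = (ff (t + c i) : ℂ) -
          ((ff (t + c i) : ℂ) - PX X (t + c i)) := by ring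
      rw [h4]
      refine (norm_sub_le _ _).trans ?_
      have h5 := hPX _ (hu i).1 (hu i).2
      rw [Complex.norm_real, Real.norm_of_nonneg (ff_nn _)]
      linarith
    · intro i
      exact hPX _ (hu i).1 (hu i).2

/-- integration over the box -/
theorem boxed {n : ℕ} (T U E CC R : ℝ) (κ X : ℕ) (F : ℝ → ℝ) (hT : 8 ≤ T)
    (hκ : 0 < κ) (hF : Continuous F) (hFb : ∀ t, 0 ≤ t → |F t| ≤ T ^ 3 * (1 + t) ^ 4)
    (hU : 0 ≤ U) (hR : 8 * T + U ≤ R) (hE : 0 ≤ E) (hC : 1 + E ≤ CC)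
    (hPX : ∀ u, T / 8 ≤ u → u ≤ R → ‖(ff u : ℂ) - PX X u‖ ≤ E)
    (hPc : ∀ c : Fin n → ℝ, (∀ i, 0 ≤ c i) →
      ContinuousOn (fun t : ℝ => ∏ j, PX X (t + c j)) (Set.Ioi 0)) :
    ∫ c, ‖((∫ t in Set.Ioi (0:ℝ), om κ (κ / T) t * (F t * ∏ j, ff (t + c j)) : ℝ) : ℂ) -
      ∫ t in (T / 8)..(8 * T), ((om κ (κ / T) t * F t : ℝ) : ℂ) * ∏ j, PX X (t + c j)‖
      ∂(mB n 0 U) ≤
    U ^ n * (T ^ 3 * (576 * (1 + U) ^ 4) ^ n *
        (∫ t in Set.Ioi (0:ℝ) \ Set.Ioc (T / 8) (8 * T), om κ (κ / T) t * (1 + t) ^ (4 + 4 * n))) +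
      n * E * ((∫ t in Set.Ioc (T / 8) (8 * T), om κ (κ / T) t * |F t|) *
        (∫ u, gR CC R u) ^ n) := by
  have hT0 : 0 < T := by linarith
  have hδ : 0 < (κ:ℝ) / T := by positivity
  have hCC : 0 ≤ CC := by linarith
  obtain ⟨M, hM⟩ := gR_bdd (C := CC) R hCC
  have h1 : IntegrableOn (fun t => om κ (κ / T) t * |F t|) (Set.Ioc (T / 8) (8 * T)) :=
    (((om_cont κ _).mul hF.abs).continuousOn.integrableOn_Icc).mono_set Set.Ioc_subset_Icc_self
  have h2 := fub (n := n) U (Set.Ioc (T / 8) (8 * T)) (fun t => om κ (κ / T) t * |F t|)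
    (gR CC R) M (∫ u, gR CC R u) h1 (by
      filter_upwards [ae_restrict_mem measurableSet_Ioc] with t ht
      exact mul_nonneg (om_nn κ hδ (by linarith [ht.1])) (abs_nonneg _))
    (gR_meas CC R) (fun u => gR_nn hCC _ _) hM (fun t => gR_int1 hCC R 0 U t)
  obtain ⟨K, hK⟩ : ∃ K : ℝ, K = T ^ 3 * (576 * (1 + U) ^ 4) ^ n *
        (∫ t in Set.Ioi (0:ℝ) \ Set.Ioc (T / 8) (8 * T), om κ (κ / T) t * (1 + t) ^ (4 + 4 * n)) :=
    ⟨_, rfl⟩
  rw [← hK]
  calc _ ≤ ∫ c, (K + n * E * ∫ t in Set.Ioc (T / 8) (8 * T), om κ (κ / T) t * |F t| *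
          ∏ i, gR CC R (t + c i)) ∂(mB n 0 U) := by
        refine integral_mono_of_nonneg (ae_of_all _ fun c => norm_nonneg _)
          ((integrable_const _).add (h2.1.const_mul _)) ?_
        filter_upwards [mB_ae n 0 U] with c hc
        rw [hK]
        exact core T U E CC R κ X F c hT hκ hF hFb hc hU hR hE hC hPX
          (hPc c fun i => (hc i).1)
    _ = K * U ^ n + n * E * ∫ c, (∫ t in Set.Ioc (T / 8) (8 * T), om κ (κ / T) t * |F t| *
          ∏ i, gR CC R (t + c i)) ∂(mB n 0 U) := by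
        rw [integral_add (integrable_const _) (h2.1.const_mul _), integral_const,
          integral_const_mul, mB_mass n hU, smul_eq_mul]
        ring
    _ ≤ K * U ^ n + n * E * ((∫ t in Set.Ioc (T / 8) (8 * T), om κ (κ / T) t * |F t|) *
        (∫ u, gR CC R u) ^ n) := by
        have := mul_le_mul_of_nonneg_left h2.2 (mul_nonneg (Nat.cast_nonneg n) hE : 0 ≤ (n:ℝ) * E)
        linarith
    _ = _ := by ring

/-- the eventual inequalities -/
theorem evt (n : ℕ) (C1 C2 A ε ε' : ℝ) (h' : ε' < ε) :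
    ∀ᶠ T : ℝ in atTop,
    (8 + A) ^ (1 + ε') ≤ T ^ (ε - ε') ∧
    C2 * ((8 + A) / 2) * (Real.log T + Real.log ((8 + A) / 2)) + (8 + A) * (1 + 8 * C1) ≤
      T ^ (1 / (20 * ((n : ℝ) + 1))) ∧
    Real.log T ^ 5 ≤ T ^ (1 / 20 : ℝ) ∧ 2 * (n * (8 * C1)) ≤ T ^ (1 / 20 : ℝ) ∧
    4 * ((9216 * A ^ 4) ^ n * A ^ n) ≤ T ^ (3 / 4 : ℝ) ∧ 8 ≤ T := by
  have hδ : (0:ℝ) < 1 / (20 * ((n : ℝ) + 1)) := by positivity
  have ev1 : ∀ᶠ T : ℝ in atTop, (8 + A) ^ (1 + ε') ≤ T ^ (ε - ε') :=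
    (tendsto_rpow_atTop (by linarith)).eventually_ge_atTop _
  have ev3 : ∀ᶠ T : ℝ in atTop, 2 * (n * (8 * C1)) ≤ T ^ (1 / 20 : ℝ) :=
    (tendsto_rpow_atTop (by norm_num)).eventually_ge_atTop _
  have ev4 : ∀ᶠ T : ℝ in atTop, 4 * ((9216 * A ^ 4) ^ n * A ^ n) ≤ T ^ (3 / 4 : ℝ) :=
    (tendsto_rpow_atTop (by norm_num)).eventually_ge_atTop _
  have ev2 : ∀ᶠ T : ℝ in atTop, C2 * ((8 + A) / 2) * (Real.log T + Real.log ((8 + A) / 2)) +
      (8 + A) * (1 + 8 * C1) ≤ T ^ (1 / (20 * ((n : ℝ) + 1))) := by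
    have h1 : (fun T : ℝ => C2 * ((8 + A) / 2) * (Real.log T + Real.log ((8 + A) / 2)) +
        (8 + A) * (1 + 8 * C1)) =o[atTop] fun T : ℝ => T ^ (1 / (20 * ((n : ℝ) + 1))) := by
      have hc : ∀ c : ℝ, (fun _ : ℝ => c) =o[atTop] fun T : ℝ => T ^ (1 / (20 * ((n : ℝ) + 1))) :=
        fun c => (Asymptotics.isLittleO_const_left.2 (Or.inr (tendsto_norm_atTop_atTop.comp
          (tendsto_rpow_atTop hδ))))
      exact (((isLittleO_log_rpow_atTop hδ).add (hc _)).const_mul_left _).add (hc _)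
    filter_upwards [h1.bound (one_pos), eventually_ge_atTop (0 : ℝ)] with T hT hT0
    rw [one_mul, Real.norm_of_nonneg (Real.rpow_nonneg hT0 _)] at hT
    exact (Real.le_norm_self _).trans hT
  have ev5 : ∀ᶠ T : ℝ in atTop, Real.log T ^ 5 ≤ T ^ (1 / 20 : ℝ) := by
    filter_upwards [(isLittleO_log_rpow_atTop (r := 1 / 100) (by norm_num)).bound (one_pos),
      eventually_ge_atTop (1 : ℝ)] with T hT hT1
    have hT0 : (0:ℝ) ≤ T := by linarith
    rw [one_mul, Real.norm_of_nonneg (Real.rpow_nonneg hT0 _),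
      Real.norm_of_nonneg (Real.log_nonneg hT1)] at hT
    calc Real.log T ^ 5 ≤ (T ^ (1 / 100 : ℝ)) ^ 5 := pow_le_pow_left₀ (Real.log_nonneg hT1) hT 5
      _ = T ^ (1 / 20 : ℝ) := by
          rw [← Real.rpow_natCast, ← Real.rpow_mul hT0]
          norm_num
  filter_upwards [ev1, ev2, ev5, ev3, ev4, eventually_ge_atTop (8:ℝ)] with T a1 a2 a3 a4 a5 a6
  exact ⟨a1, a2, a3, a4, a5, a6⟩

theorem w2_gen (F : ℝ → ℝ → ℝ) (hCT : Pool.Agent.Y969.GP.S_CT) (h1 : ∀ᶠ T : ℝ in atTop, Continuous (F T) ∧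
      ∀ t : ℝ, 0 ≤ t → |F T t| ≤ T ^ 3 * (1 + t) ^ 4)
    (h3 : ∀ᶠ T : ℝ in atTop, ∀ κ : ℕ, Rng T κ →
      ∫ t in Set.Ioi (0:ℝ), om κ (κ / T) t * |F T t| ≤ Real.log T ^ 5 ∧
        IntegrableOn (fun t => om κ (κ / T) t * |F T t|) (Set.Ioi 0))
    (h4 : Pool.Agent.Y969.GP.S_AFE) (h5 : Pool.Agent.Y969.GP.S_SM) :
    ∀ (n : ℕ) (A ε : ℝ), 1 ≤ A → 0 < ε → ∀ᶠ T : ℝ in atTop,
  ∀ κ : ℕ, Rng T κ → ∀ (U : ℝ) (X : ℕ), T ≤ U → U ≤ A * T → T ^ (1 + ε) ≤ (X : ℝ) → (X : ℝ) ≤ T ^ 2 →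
  ∫ c, ‖((∫ t in Set.Ioi (0:ℝ), om κ (κ / T) t * (F T t * ∏ j, ff (t + c j)) : ℝ) : ℂ) -
      ∫ t in (T / 8)..(8 * T), ((om κ (κ / T) t * F T t : ℝ) : ℂ) * ∏ j, PX X (t + c j)‖
      ∂(mB n 0 U) ≤ T ^ ((n : ℝ) - 1 / 4) := by
  intro n A ε hA hε
  obtain ⟨ε', hε', hε1, hε2⟩ : ∃ ε' : ℝ, 0 < ε' ∧ ε' < ε ∧ ε' ≤ 1 / 20 := by
    refine ⟨min (ε / 2) (1 / 20), lt_min (by positivity) (by norm_num), ?_, min_le_right _ _⟩
    exact (min_le_left _ _).trans_lt (by linarith)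
  obtain ⟨C1, hC1, hAF⟩ := h4 ε' hε'
  obtain ⟨C2, hC2, hS2⟩ := h5
  filter_upwards [h1, h3, om_tail_int (4 + 4 * n) (4 * n + 4), evt n C1 C2 A ε ε' hε1]
    with T f1 f3 ft ⟨e1, e2, e3, e4, e5, e6⟩ κ hκ U X hTU hUA hX hX2
  have hT0 : 0 < T := by linarith
  have hT1 : 1 ≤ T := by linarith
  have hL : 0 < Real.log T := Real.log_pos (by linarith)
  have hκ0 : 0 < κ := by
    have : (0:ℝ) < κ := lt_of_lt_of_le (by positivity) hκ.1
    exact_mod_cast this
  have hδ : 0 < (κ:ℝ) / T := by positivity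
  have hU0 : 0 ≤ U := by linarith
  obtain ⟨hF, hFb⟩ := f1
  obtain ⟨hI1, hI2⟩ := f3 κ hκ
  have ht9 : T ^ (-(9 / 20) : ℝ) ≤ 1 := Real.rpow_le_one_of_one_le_of_nonpos hT1 (by norm_num)
  have ht90 : 0 < T ^ (-(9 / 20) : ℝ) := Real.rpow_pos_of_pos hT0 _
  have hE0 : 0 ≤ 8 * C1 * T ^ (-(9 / 20) : ℝ) := by positivity
  -- the approximate functional equation
  have hPX : ∀ u, T / 8 ≤ u → u ≤ (8 + A) * T → ‖(ff u : ℂ) - PX X u‖ ≤ 8 * C1 * T ^ (-(9 / 20) : ℝ) := by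
    intro u hu1 hu2
    have hu0 : 0 < u := by linarith
    refine (hAF u X (by linarith) ?_).trans ?_
    · calc u ^ (1 + ε') ≤ ((8 + A) * T) ^ (1 + ε') := Real.rpow_le_rpow hu0.le hu2 (by linarith)
        _ = (8 + A) ^ (1 + ε') * T ^ (1 + ε') := Real.mul_rpow (by linarith) hT0.le
        _ ≤ T ^ (ε - ε') * T ^ (1 + ε') := mul_le_mul_of_nonneg_right e1 (by positivity)
        _ = T ^ (1 + ε) := by
            rw [← Real.rpow_add hT0]
            congr 1
            ring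
        _ ≤ X := hX
    · have h6 : u ^ (-(1 / 2) + ε') ≤ (T / 8) ^ (-(1 / 2) + ε') :=
        Real.rpow_le_rpow_of_nonpos (by positivity) hu1 (by linarith)
      have h7 : (T / 8) ^ (-(1 / 2) + ε') = T ^ (-(1 / 2) + ε') * 8 ^ (1 / 2 - ε') := by
        rw [Real.div_rpow hT0.le (by norm_num), div_eq_mul_inv, ← Real.rpow_neg (by norm_num)]
        congr 2
        ring
      have h8 : T ^ (-(1 / 2) + ε') ≤ T ^ (-(9 / 20) : ℝ) :=
        Real.rpow_le_rpow_of_exponent_le hT1 (by linarith)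
      have h9 : (8:ℝ) ^ (1 / 2 - ε') ≤ 8 := by
        calc (8:ℝ) ^ (1 / 2 - ε') ≤ 8 ^ (1:ℝ) := Real.rpow_le_rpow_of_exponent_le (by norm_num) (by linarith)
          _ = 8 := Real.rpow_one 8
      calc C1 * u ^ (-(1 / 2) + ε') ≤ C1 * (T ^ (-(9 / 20) : ℝ) * 8) := by
            refine mul_le_mul_of_nonneg_left ?_ hC1.le
            rw [h7] at h6
            exact h6.trans (mul_le_mul h8 h9 (by positivity) ht90.le)
        _ = _ := by ring
  -- continuity
  have hPc : ∀ c : Fin n → ℝ, (∀ i, 0 ≤ c i) →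
      ContinuousOn (fun t : ℝ => ∏ j, PX X (t + c j)) (Set.Ioi 0) := by
    have hP1 : ContinuousOn (fun u : ℝ => PX X u) (Set.Ioi 0) := by
      have h6 := (hCT 0 X).1
      have h7 : Continuous (fun u : ℝ => ((fun i => Fin.elim0 i, u) : (Fin 0 → ℝ) × ℝ)) := by fun_prop
      have h8 := h6.comp h7.continuousOn (s := Set.Ioi 0) (fun u hu => by
        intro j
        have hj : j = 0 := Fin.fin_one_eq_zero j
        rw [hj]
        simpa [Pool.Agent.Y969.GP.cc] using hu)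
      refine h8.congr fun u _ => ?_
      simp [Pool.Agent.Y969.GP.cc]
    intro c hc
    refine continuousOn_finsetProd _ fun j _ => ?_
    refine hP1.comp (by fun_prop) fun t ht => ?_
    have ht' : (0:ℝ) < t := ht
    have := hc j
    show (0:ℝ) < t + c j
    linarith
  have hmain := boxed (n := n) T U (8 * C1 * T ^ (-(9 / 20) : ℝ)) (1 + 8 * C1) ((8 + A) * T) κ X (F T)
    e6 hκ0 hF hFb hU0 (by nlinarith) hE0 (by nlinarith) hPX hPc
  refine hmain.trans ?_
  -- the tail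
  have hp1 : U ^ n * (T ^ 3 * (576 * (1 + U) ^ 4) ^ n *
        (∫ t in Set.Ioi (0:ℝ) \ Set.Ioc (T / 8) (8 * T), om κ (κ / T) t * (1 + t) ^ (4 + 4 * n))) ≤
      1 / 2 * T ^ ((n : ℝ) - 1 / 4) := by
    have g1 := ft κ hκ
    have g0 : 0 ≤ ∫ t in Set.Ioi (0:ℝ) \ Set.Ioc (T / 8) (8 * T), om κ (κ / T) t * (1 + t) ^ (4 + 4 * n) :=
      setIntegral_nonneg (measurableSet_Ioi.diff measurableSet_Ioc) fun t ht => by
        have ht0 : (0:ℝ) ≤ t := le_of_lt ht.1
        exact mul_nonneg (om_nn κ hδ ht0) (by positivity)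
    obtain ⟨τ, hτ⟩ : ∃ τ : ℝ, τ = ∫ t in Set.Ioi (0:ℝ) \ Set.Ioc (T / 8) (8 * T),
      om κ (κ / T) t * (1 + t) ^ (4 + 4 * n) := ⟨_, rfl⟩
    rw [← hτ] at g0 g1 ⊢
    have g2 : 1 + U ≤ 2 * A * T := by nlinarith
    have g3 : (576 * (1 + U) ^ 4) ^ n ≤ (9216 * A ^ 4) ^ n * T ^ (4 * n) := by
      calc (576 * (1 + U) ^ 4) ^ n ≤ (576 * (2 * A * T) ^ 4) ^ n := by gcongr
        _ = (9216 * A ^ 4) ^ n * T ^ (4 * n) := by
            rw [pow_mul, ← mul_pow]
            congr 1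
            ring
    have g4 : U ^ n ≤ A ^ n * T ^ n := by
      rw [← mul_pow]
      gcongr
    have g5 : T ^ (-((4 * n + 4 : ℕ) : ℝ)) = (T ^ (4 * n + 4))⁻¹ := by
      rw [Real.rpow_neg hT0.le, Real.rpow_natCast]
    calc _ ≤ (A ^ n * T ^ n) * (T ^ 3 * ((9216 * A ^ 4) ^ n * T ^ (4 * n)) *
          (2 * T ^ (-((4 * n + 4 : ℕ) : ℝ)))) := by
          gcongr
      _ = 1 / 2 * ((4 * ((9216 * A ^ 4) ^ n * A ^ n)) * (T ^ n * T ^ (-(1:ℝ)))) := by
          rw [g5, Real.rpow_neg_one]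
          have : T ^ (4 * n + 4) = T ^ (4 * n) * T ^ 3 * T := by ring
          rw [this]
          field_simp
          norm_num
      _ ≤ 1 / 2 * (T ^ (3 / 4 : ℝ) * (T ^ n * T ^ (-(1:ℝ)))) := by
          refine mul_le_mul_of_nonneg_left ?_ (by norm_num)
          exact mul_le_mul_of_nonneg_right e5 (by positivity)
      _ = 1 / 2 * T ^ ((n : ℝ) - 1 / 4) := by
          rw [← Real.rpow_natCast, ← Real.rpow_add hT0, ← Real.rpow_add hT0]
          congr 2
          ring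
  -- the second moment
  have hB : ∫ u, gR (1 + 8 * C1) ((8 + A) * T) u ≤ T ^ (1 + 1 / (20 * ((n : ℝ) + 1))) := by
    rw [gR_int_eq _ _ (by positivity)]
    have g1 := hS2 ((8 + A) / 2 * T) (by nlinarith)
    have g2 : 2 * ((8 + A) / 2 * T) = (8 + A) * T := by ring
    rw [g2, Real.log_mul (by positivity) hT0.ne'] at g1
    calc (∫ u in (0 : ℝ)..((8 + A) * T), ff u) + (8 + A) * T * (1 + 8 * C1)
        ≤ C2 * ((8 + A) / 2 * T) * (Real.log ((8 + A) / 2) + Real.log T) +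
          (8 + A) * T * (1 + 8 * C1) := by linarith
      _ = T * (C2 * ((8 + A) / 2) * (Real.log T + Real.log ((8 + A) / 2)) +
          (8 + A) * (1 + 8 * C1)) := by ring
      _ ≤ T * T ^ (1 / (20 * ((n : ℝ) + 1))) := mul_le_mul_of_nonneg_left e2 hT0.le
      _ = T ^ (1 + 1 / (20 * ((n : ℝ) + 1))) := by rw [Real.rpow_add hT0, Real.rpow_one]
  have hBn : (∫ u, gR (1 + 8 * C1) ((8 + A) * T) u) ^ n ≤ T ^ ((n : ℝ) + 1 / 20) := by
    calc _ ≤ (T ^ (1 + 1 / (20 * ((n : ℝ) + 1)))) ^ n :=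
          pow_le_pow_left₀ (integral_nonneg fun u => gR_nn (by positivity) _ _) hB n
      _ = T ^ ((1 + 1 / (20 * ((n : ℝ) + 1))) * n) := by
          rw [← Real.rpow_natCast, ← Real.rpow_mul hT0.le]
      _ ≤ T ^ ((n : ℝ) + 1 / 20) := by
          refine Real.rpow_le_rpow_of_exponent_le hT1 ?_
          have g1 : (n : ℝ) / ((n : ℝ) + 1) ≤ 1 := by
            rw [div_le_one (by positivity)]
            linarith
          calc (1 + 1 / (20 * ((n : ℝ) + 1))) * n = n + 1 / 20 * ((n : ℝ) / ((n : ℝ) + 1)) := by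
                field_simp
            _ ≤ n + 1 / 20 := by linarith
  have hI3 : ∫ t in Set.Ioc (T / 8) (8 * T), om κ (κ / T) t * |F T t| ≤ T ^ (1 / 20 : ℝ) := by
    refine le_trans ?_ (hI1.trans e3)
    refine setIntegral_mono_set hI2 ?_ (ae_of_all _ fun t ht => ?_)
    · filter_upwards [ae_restrict_mem measurableSet_Ioi] with t ht
      exact mul_nonneg (om_nn κ hδ (le_of_lt ht)) (abs_nonneg _)
    · exact lt_trans (by positivity) ht.1
  have hp2 : (n : ℝ) * (8 * C1 * T ^ (-(9 / 20) : ℝ)) *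
      ((∫ t in Set.Ioc (T / 8) (8 * T), om κ (κ / T) t * |F T t|) *
        (∫ u, gR (1 + 8 * C1) ((8 + A) * T) u) ^ n) ≤ 1 / 2 * T ^ ((n : ℝ) - 1 / 4) := by
    have g0 : 0 ≤ (∫ u, gR (1 + 8 * C1) ((8 + A) * T) u) ^ n :=
      pow_nonneg (integral_nonneg fun u => gR_nn (by positivity) _ _) _
    calc _ ≤ (n : ℝ) * (8 * C1 * T ^ (-(9 / 20) : ℝ)) * (T ^ (1 / 20 : ℝ) * T ^ ((n : ℝ) + 1 / 20)) := by
          refine mul_le_mul_of_nonneg_left ?_ (by positivity)
          exact mul_le_mul hI3 hBn g0 (by positivity)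
      _ = 1 / 2 * ((2 * (n * (8 * C1))) * (T ^ (-(9 / 20) : ℝ) * (T ^ (1 / 20 : ℝ) *
            T ^ ((n : ℝ) + 1 / 20)))) := by ring
      _ ≤ 1 / 2 * (T ^ (1 / 20 : ℝ) * (T ^ (-(9 / 20) : ℝ) * (T ^ (1 / 20 : ℝ) *
            T ^ ((n : ℝ) + 1 / 20)))) := by
          refine mul_le_mul_of_nonneg_left ?_ (by norm_num)
          exact mul_le_mul_of_nonneg_right e4 (by positivity)
      _ = 1 / 2 * T ^ ((n : ℝ) - 3 / 10) := by
          rw [← Real.rpow_add hT0, ← Real.rpow_add hT0, ← Real.rpow_add hT0]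
          congr 2
          ring
      _ ≤ 1 / 2 * T ^ ((n : ℝ) - 1 / 4) := by
          refine mul_le_mul_of_nonneg_left ?_ (by norm_num)
          exact Real.rpow_le_rpow_of_exponent_le hT1 (by linarith)
  linarith

/-- W2: the shifted factors are replaced by Dirichlet polynomials -/
theorem t_W2 (k : ℕ) (h1 : Pool.Agent.Y969.SM.S_FB k)
    (h3 : ∀ᶠ T : ℝ in atTop, ∀ κ : ℕ, Rng T κ →
      ∫ t in Set.Ioi (0:ℝ), om κ (κ / T) t * |Pool.Agent.Y969.SM.F0 k T t| ≤ Real.log T ^ 5 ∧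
        IntegrableOn (fun t => om κ (κ / T) t * |Pool.Agent.Y969.SM.F0 k T t|) (Set.Ioi 0))
    (h4 : Pool.Agent.Y969.GP.S_AFE) (h5 : Pool.Agent.Y969.GP.S_SM) :
    Pool.Agent.Y969.SM.S_W2 k :=
  w2_gen (Pool.Agent.Y969.SM.F0 k) (Pool.Agent.Y86.GP.t_CT Pool.Agent.Y587.GP.t_V)
    (h1.mono fun _ h => ⟨h.1, h.2.2⟩) h3 h4 h5

end

end Pool.Agent.Y448.SX
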